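import Pool.Agent.H220M.Fin5

/-!
# All sign patterns after a random change of the signs at an arbitrary infinite set of primes

Let `g` be a completely multiplicative function with values `±1` at the primes, for instance the
Liouville function, and let `Q` be any infinite set of primes, however sparse. Change the sign of
`g` at the primes of `Q` according to independent fair coins. Then almost surely the completely
multiplicative function obtained has every sign pattern of every length, each with positive upper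
density.

The finite version is uniform in `g`, and in the set `Q` of primes as far as its size is concerned:
for each length `n` and each `η > 0` there is an `R` such that for each set `Q` of at least `R`
primes there are `δ > 0` and `x₀` such that for every `g` and every `x ≥ x₀`, all but a proportion
`η` of the `2 ^ |Q|` functions which agree with `g` at the primes outside `Q` have each pattern of
length `n` at least `δ x` times below `x`.
-/

set_option autoImplicit false

namespace Pool.Agent.N318.Shelf.EveryInfinitePrimeSet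

open Filter MeasureTheory Pool.Agent.H220M

theorem result :
    (∀ g : ℕ →*₀ ℤ, (∀ p : ℕ, p.Prime → g p = 1 ∨ g p = -1) →
      ∀ Q : Set ℕ, Q.Infinite → (∀ q ∈ Q, q.Prime) →
      ∀ᵐ ω ∂coins, ∃! f : ℕ →*₀ ℤ, IsModif g Q ω f ∧
        ∀ (n : ℕ) (t : Fin n → ℤ), (∀ j, t j = 1 ∨ t j = -1) →
          ∃ δ : ℝ, 0 < δ ∧ ∃ᶠ x : ℕ in atTop, δ * x ≤ (cnt f t x : ℝ)) ∧
    (∀ (n : ℕ) (η : ℝ), 0 < η →
      ∃ R : ℕ, ∀ Q : Finset ℕ, (∀ q ∈ Q, q.Prime) → R ≤ Q.card →
        ∃ δ : ℝ, 0 < δ ∧ ∃ x₀ : ℕ, ∀ g : ℕ →*₀ ℤ, (∀ p : ℕ, p.Prime → g p = 1 ∨ g p = -1) →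
          (family g Q).Finite ∧ (family g Q).ncard = 2 ^ Q.card ∧
          (∀ x ≥ x₀, ({f ∈ family g Q | ∃ t : Fin n → ℤ, (∀ j, t j = 1 ∨ t j = -1) ∧
              (cnt f t x : ℝ) < δ * x}.ncard : ℝ) ≤ η * 2 ^ Q.card)) :=
  ⟨fun g hg Q hQ hQp => finalC g hg Q hQ hQp, fun n η hη => by
    obtain ⟨R, hR⟩ := finalA n η hη
    refine ⟨R, fun Q hQ hc => ?_⟩
    obtain ⟨δ, hδ, x₀, hx⟩ := hR Q hQ hc
    exact ⟨δ, hδ, x₀, fun g hg => ⟨(hx g hg).1, (hx g hg).2.1, (hx g hg).2.2.1⟩⟩⟩

end Pool.Agent.N318.Shelf.EveryInfinitePrimeSet
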